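import Mathlib

/-!
One variable part: polynomials with almost nonnegative real part on a big keyhole set.
-/

set_option autoImplicit false

open MeasureTheory Filter Topology Polynomial

namespace Pool.Agent.H903R3

/-- closed disc of radius `R` minus the part outside the unit disc of a thin sector around the
positive real axis -/
def KH (c R : ℝ) : Set ℂ := {z : ℂ | ‖z‖ ≤ R ∧ (‖z‖ ≤ 1 ∨ z.re ≤ c * ‖z‖)}

lemma isCompact_KH (c R : ℝ) : IsCompact (KH c R) := by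
  apply Metric.isCompact_of_isClosed_isBounded
  · unfold KH
    apply IsClosed.inter
    · exact isClosed_le continuous_norm continuous_const
    · exact (isClosed_le continuous_norm continuous_const).union
        (isClosed_le Complex.continuous_re (by fun_prop))
  · refine (Metric.isBounded_closedBall (x := (0 : ℂ)) (r := R)).subset ?_
    intro z hz
    simpa using hz.1

lemma lower_sector {c : ℝ} (hc0 : 0 ≤ c) (hc : c < 1) {z : ℂ} (hz : z.re ≤ c * ‖z‖) {t : ℝ}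
    (ht : 0 ≤ t) : (1 - c) * max 1 (t * ‖z‖) ≤ ‖1 - (t : ℂ) * z‖ := by
  have h1 : (1 - c) ^ 2 * (1 + (t * ‖z‖) ^ 2) ≤ ‖1 - (t : ℂ) * z‖ ^ 2 := by
    rw [Complex.sq_norm, Complex.normSq_apply]
    have h2 : ‖z‖ ^ 2 = z.re ^ 2 + z.im ^ 2 := by
      rw [Complex.sq_norm, Complex.normSq_apply]; ring
    have h4 : t * z.re ≤ t * (c * ‖z‖) := mul_le_mul_of_nonneg_left hz ht
    have e : (1 - (t : ℂ) * z).re * (1 - (t : ℂ) * z).re + (1 - (t : ℂ) * z).im * (1 - (t : ℂ) * z).im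
        = 1 - 2 * (t * z.re) + t ^ 2 * ‖z‖ ^ 2 := by
      rw [h2]; simp; ring
    rw [e]
    have h5 : 2 * (t * ‖z‖) ≤ 1 + (t * ‖z‖) ^ 2 := by nlinarith [sq_nonneg (t * ‖z‖ - 1)]
    have h6 : (1 - c) * (1 + (t * ‖z‖) ^ 2) ≤ 1 - 2 * (t * z.re) + t ^ 2 * ‖z‖ ^ 2 := by
      nlinarith [mul_le_mul_of_nonneg_left h5 hc0]
    refine le_trans ?_ h6
    have : (1 - c) ^ 2 ≤ 1 - c := by nlinarith
    gcongr
  have h7 : max 1 (t * ‖z‖) ^ 2 ≤ 1 + (t * ‖z‖) ^ 2 := by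
    rcases max_choice 1 (t * ‖z‖) with h | h <;> rw [h] <;> nlinarith [sq_nonneg (t * ‖z‖)]
  have h8 : ((1 - c) * max 1 (t * ‖z‖)) ^ 2 ≤ ‖1 - (t : ℂ) * z‖ ^ 2 := by
    rw [mul_pow]
    refine le_trans ?_ h1
    gcongr
  exact (sq_le_sq₀ (by have : 0 ≤ 1 - c := by linarith
                       positivity) (norm_nonneg _)).1 h8

lemma lower_disc {z : ℂ} (hz : ‖z‖ ≤ 1) {t : ℝ} (ht : 0 ≤ t) (ht2 : t ≤ 1 / 2) :
    1 / 2 ≤ ‖1 - (t : ℂ) * z‖ := by
  have h1 : ‖(1 : ℂ)‖ - ‖(t : ℂ) * z‖ ≤ ‖1 - (t : ℂ) * z‖ := norm_sub_norm_le _ _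
  rw [norm_one, norm_mul, Complex.norm_real, Real.norm_of_nonneg ht] at h1
  nlinarith [norm_nonneg z]

/-- `1 / (1 - t z)` is a uniform limit of polynomials on `KH c R`, for `0 ≤ t ≤ 1/2`. -/
lemma approx_inv {c : ℝ} (hc0 : 0 ≤ c) (hc : c < 1) {R : ℝ} (hR : 1 ≤ R) {t : ℝ} (ht : 0 ≤ t)
    (ht2 : t ≤ 1 / 2) {ε : ℝ} (hε : 0 < ε) :
    ∃ p : ℂ[X], ∀ z ∈ KH c R, ‖p.eval z - (1 - (t : ℂ) * z)⁻¹‖ ≤ ε := by
  have : CompactSpace (KH c R) := isCompact_iff_compactSpace.1 (isCompact_KH c R)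
  set A := (polynomialFunctions (KH c R)).topologicalClosure with hA
  have : CompleteSpace A := (Subalgebra.isClosed_topologicalClosure _).completeSpace_coe
  have hX : (X : ℂ[X]).toContinuousMapOn (KH c R) ∈ A := by
    apply Subalgebra.le_topologicalClosure
    exact ⟨X, by simp, rfl⟩
  set x : A := ⟨(X : ℂ[X]).toContinuousMapOn (KH c R), hX⟩ with hx
  set s : ℝ := min (1 / 2) (1 - c) with hs
  have hs0 : 0 < s := lt_min (by norm_num) (by linarith)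
  have hlow : ∀ (l : ℝ), 0 ≤ l → l ≤ 1 / 2 → ∀ z ∈ KH c R, s ≤ ‖1 - (l : ℂ) * z‖ := by
    intro l hl hl2 z hz
    rcases hz.2 with h | h
    · exact (min_le_left _ _).trans (lower_disc h hl hl2)
    · refine (min_le_right _ _).trans ?_
      have h3 := lower_sector hc0 hc h hl
      have h2 : (1 - c) * 1 ≤ (1 - c) * max 1 (l * ‖(z : ℂ)‖) :=
        mul_le_mul_of_nonneg_left (le_max_left _ _) (by linarith)
      linarith
  have hinv : ∀ (l : ℝ), ∀ v : Aˣ, (v : A) = 1 - (l : ℂ) • x →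
      ∀ z : KH c R, ((v⁻¹ : Aˣ) : A).1 z = (1 - (l : ℂ) * (z : ℂ))⁻¹ := by
    intro l v hv z
    have h1 : (v : A) * ((v⁻¹ : Aˣ) : A) = 1 := v.mul_inv
    rw [hv] at h1
    have h2 := congrArg (fun a : A => a.1 z) h1
    simp [hx] at h2
    exact eq_inv_of_mul_eq_one_right h2
  have hnorm : ∀ (l : ℝ), 0 ≤ l → l ≤ 1 / 2 → ∀ v : Aˣ, (v : A) = 1 - (l : ℂ) • x →
      ‖((v⁻¹ : Aˣ) : A)‖ ≤ 1 / s := by
    intro l hl hl2 v hv
    change ‖((v⁻¹ : Aˣ) : A).1‖ ≤ 1 / s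
    rw [ContinuousMap.norm_le _ (by positivity)]
    intro z
    rw [hinv l v hv z, norm_inv, ← one_div]
    have h := hlow l hl hl2 z z.2
    gcongr
  have hxn : ‖x‖ ≤ R := by
    change ‖x.1‖ ≤ R
    rw [ContinuousMap.norm_le _ (by linarith)]
    intro z
    simpa [hx] using z.2.1
  have hstep : ∀ (l d : ℝ), 0 ≤ l → l ≤ 1 / 2 → 0 ≤ d → d * R < s → IsUnit (1 - (l : ℂ) • x) →
      IsUnit (1 - ((l + d : ℝ) : ℂ) • x) := by
    intro l d hl hl2 hd hdc ⟨v, hv⟩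
    have h1 := hnorm l hl hl2 v hv
    have h2 : ‖((d : ℂ) • x) * ((v⁻¹ : Aˣ) : A)‖ < 1 := by
      calc _ ≤ ‖((d : ℂ) • x)‖ * ‖((v⁻¹ : Aˣ) : A)‖ := norm_mul_le _ _
        _ ≤ (d * R) * (1 / s) := by
          gcongr
          rw [norm_smul, Complex.norm_real, Real.norm_of_nonneg hd]
          gcongr
        _ < 1 := by rw [mul_one_div, div_lt_one hs0]; exact hdc
    have h3 : 1 - ((l + d : ℝ) : ℂ) • x = (v : A) * (1 - ((d : ℂ) • x) * ((v⁻¹ : Aˣ) : A)) := by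
      rw [mul_sub, mul_one, mul_comm ((d : ℂ) • x), ← mul_assoc, v.mul_inv, one_mul, hv]
      push_cast
      rw [add_smul]; abel
    rw [h3]
    exact v.isUnit.mul (Units.oneSub _ h2).isUnit
  obtain ⟨k, hk⟩ := exists_nat_gt (t * R / s)
  have hk0 : (0 : ℝ) < k := lt_of_le_of_lt (by positivity) hk
  set d : ℝ := t / k with hd
  have hd0 : 0 ≤ d := by positivity
  have hds : d * R < s := by
    rw [div_lt_iff₀ hs0] at hk
    rw [hd, div_mul_eq_mul_div, div_lt_iff₀ hk0]; linarith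
  have hall : ∀ m : ℕ, m ≤ k → IsUnit (1 - (((m : ℝ) * d : ℝ) : ℂ) • x) := by
    intro m
    induction m with
    | zero => intro _; simp
    | succ m ih =>
      intro hm
      have hmk : ((m : ℝ) * d) ≤ 1 / 2 := by
        have : ((m : ℝ)) ≤ k := by exact_mod_cast (by omega : m ≤ k)
        calc (m : ℝ) * d ≤ k * d := by gcongr
          _ = t := by rw [hd]; field_simp
          _ ≤ 1 / 2 := ht2
      have := hstep (m * d) d (by positivity) hmk hd0 hds (ih (by omega))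
      convert this using 4
      push_cast; ring
  have hu := hall k le_rfl
  have hkd : (k : ℝ) * d = t := by rw [hd]; field_simp
  rw [hkd] at hu
  obtain ⟨v, hv⟩ := hu
  have hmem : ((v⁻¹ : Aˣ) : A).1 ∈ closure (polynomialFunctions (KH c R) : Set C(KH c R, ℂ)) := by
    exact ((v⁻¹ : Aˣ) : A).2
  rw [Metric.mem_closure_iff] at hmem
  obtain ⟨b, hb, hd⟩ := hmem ε hε
  obtain ⟨p, -, rfl⟩ := hb
  refine ⟨p, fun z hz => ?_⟩
  rw [dist_comm, dist_eq_norm, ContinuousMap.norm_lt_iff _ hε] at hd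
  have := hd ⟨z, hz⟩
  rw [ContinuousMap.sub_apply, hinv t v hv ⟨z, hz⟩] at this
  exact this.le

/-- dyadic sum bound -/
lemma dyadic_sum (J : ℕ) : ∀ x : ℝ, 0 < x →
    ∑ j ∈ Finset.range J, min (2 ^ j * x) (2 ^ j * x)⁻¹ ≤ (if x < 1 then 4 - x else 2 / x) := by
  induction J with
  | zero =>
    intro x hx
    simp
    split_ifs with h
    · linarith
    · positivity
  | succ J ih =>
    intro x hx
    rw [Finset.sum_range_succ']
    have h1 : ∑ j ∈ Finset.range J, min ((2 : ℝ) ^ (j + 1) * x) (2 ^ (j + 1) * x)⁻¹ =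
        ∑ j ∈ Finset.range J, min (2 ^ j * (2 * x)) (2 ^ j * (2 * x))⁻¹ := by
      refine Finset.sum_congr rfl (fun j _ => ?_)
      rw [pow_succ, mul_assoc]
    rw [h1]
    have h2 := ih (2 * x) (by positivity)
    simp only [pow_zero, one_mul]
    split_ifs with h
    · have h3 : min x x⁻¹ ≤ x := min_le_left _ _
      split_ifs at h2 with h4
      · linarith
      · have h5 : 2 / (2 * x) = x⁻¹ := by field_simp
        rw [h5] at h2
        have h6 : x⁻¹ ≤ 2 := by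
          rw [inv_le_comm₀ hx (by norm_num)]; linarith
        have h7 : x⁻¹ ≤ 4 - 2 * x := by
          rw [inv_le_iff_one_le_mul₀ hx]
          nlinarith
        linarith
    · have h3 : min x x⁻¹ ≤ x⁻¹ := min_le_right _ _
      rw [if_neg (by linarith)] at h2
      have h5 : 2 / (2 * x) = x⁻¹ := by field_simp
      rw [h5] at h2
      have h6 : 2 / x = x⁻¹ + x⁻¹ := by field_simp; norm_num
      linarith

lemma dyadic_sum' (J : ℕ) (x : ℝ) (hx : 0 < x) :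
    ∑ j ∈ Finset.range J, min (2 ^ j * x) (2 ^ j * x)⁻¹ ≤ 4 := by
  refine (dyadic_sum J x hx).trans ?_
  split_ifs with h
  · linarith
  · rw [div_le_iff₀ hx]; linarith

/-- real part of one term, on the complement of the sector -/
lemma term_lower {c : ℝ} (hc0 : 0 ≤ c) (hc : c < 1) {z : ℂ} (hz : z.re ≤ c * ‖z‖) {t : ℝ}
    (ht : 0 < t) (hz0 : z ≠ 0) :
    -((1 - c)⁻¹ * min (t * ‖z‖) (t * ‖z‖)⁻¹) ≤ (1 - (1 - (t : ℂ) * z)⁻¹).re ∧
    (1 ≤ t * ‖z‖ → 1 - (1 - c)⁻¹ * min (t * ‖z‖) (t * ‖z‖)⁻¹ ≤ (1 - (1 - (t : ℂ) * z)⁻¹).re) := by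
  have hs0 : 0 < 1 - c := by linarith
  have hzn : 0 < ‖z‖ := norm_pos_iff.2 hz0
  have hlb := lower_sector hc0 hc hz ht.le
  have hpos : 0 < ‖1 - (t : ℂ) * z‖ := lt_of_lt_of_le (by positivity) hlb
  have hne : (1 - (t : ℂ) * z) ≠ 0 := norm_pos_iff.1 hpos
  have hA : 1 ≤ t * ‖z‖ → 1 - (1 - c)⁻¹ * min (t * ‖z‖) (t * ‖z‖)⁻¹ ≤ (1 - (1 - (t : ℂ) * z)⁻¹).re := by
    intro h1
    have h2 : min (t * ‖z‖) (t * ‖z‖)⁻¹ = (t * ‖z‖)⁻¹ := by
      apply min_eq_right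
      exact (inv_le_one_of_one_le₀ h1).trans h1
    rw [h2]
    have hb1 : ‖(1 - (t : ℂ) * z)⁻¹‖ ≤ (1 - c)⁻¹ * (t * ‖z‖)⁻¹ := by
      rw [norm_inv, ← mul_inv]
      have : (1 - c) * (t * ‖z‖) ≤ ‖1 - (t : ℂ) * z‖ :=
        le_trans (by gcongr; exact le_max_right _ _) hlb
      gcongr
    have h3 := Complex.re_le_norm ((1 - (t : ℂ) * z)⁻¹)
    rw [Complex.sub_re, Complex.one_re]
    linarith
  refine ⟨?_, hA⟩
  rcases le_total (t * ‖z‖) 1 with h1 | h1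
  · have h2 : min (t * ‖z‖) (t * ‖z‖)⁻¹ = t * ‖z‖ := by
      apply min_eq_left
      exact h1.trans ((one_le_inv₀ (by positivity)).2 h1)
    rw [h2]
    have e : 1 - (1 - (t : ℂ) * z)⁻¹ = -((t : ℂ) * z) * (1 - (t : ℂ) * z)⁻¹ := by
      field_simp
      ring
    have h4 : ‖1 - (1 - (t : ℂ) * z)⁻¹‖ ≤ (1 - c)⁻¹ * (t * ‖z‖) := by
      rw [e, norm_mul, norm_neg, norm_mul, Complex.norm_real, Real.norm_of_nonneg ht.le, norm_inv]
      have h3 : ‖1 - (t : ℂ) * z‖⁻¹ ≤ (1 - c)⁻¹ := by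
        have : (1 - c) * 1 ≤ ‖1 - (t : ℂ) * z‖ :=
          le_trans (by gcongr; exact le_max_left _ _) hlb
        gcongr
        linarith
      calc t * ‖z‖ * ‖1 - (t : ℂ) * z‖⁻¹ ≤ t * ‖z‖ * (1 - c)⁻¹ := by gcongr
        _ = _ := by ring
    have h5 := (abs_le.1 (Complex.abs_re_le_norm (1 - (1 - (t : ℂ) * z)⁻¹))).1
    linarith
  · have := hA h1
    linarith

/-- **Key polynomials.** For every sector bound `c < 1` and every `ε > 0` there is `W` such that for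
each `R ≥ 1` some polynomial `p` satisfies: `p 0 = 0`, `|p w| ≤ 2 |w|` on the unit disc,
`Re p ≥ -ε` on the part of the disc of radius `R` outside the sector, and `Re p ≥ 1 - ε` on the part
of it with `|w| ≥ W`. -/
lemma key {c : ℝ} (hc0 : 0 ≤ c) (hc : c < 1) {ε : ℝ} (hε : 0 < ε) :
    ∃ W : ℝ, 1 ≤ W ∧ ∀ R : ℝ, 1 ≤ R → ∃ p : ℂ[X],
      (∀ w : ℂ, ‖w‖ ≤ 1 → ‖p.eval w‖ ≤ 2 * ‖w‖) ∧
      (∀ w : ℂ, ‖w‖ ≤ R → w.re ≤ c * ‖w‖ → -ε ≤ (p.eval w).re) ∧
      (∀ w : ℂ, W ≤ ‖w‖ → ‖w‖ ≤ R → w.re ≤ c * ‖w‖ → 1 - ε ≤ (p.eval w).re) := by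
  have hs0 : 0 < 1 - c := by linarith
  obtain ⟨J, hJ⟩ := exists_nat_gt (8 / ((1 - c) * ε))
  have hJ0 : (0 : ℝ) < J := lt_of_le_of_lt (by positivity) hJ
  have hJn : 0 < J := by exact_mod_cast hJ0
  rw [div_lt_iff₀ (by positivity)] at hJ
  have hJε : (J : ℝ)⁻¹ * ((1 - c)⁻¹ * 4) ≤ ε / 2 := by
    have : (1 - c)⁻¹ * 4 ≤ J * (ε / 2) := by
      rw [inv_mul_le_iff₀ hs0]; nlinarith
    have h2 : (0 : ℝ) < (J : ℝ)⁻¹ := by positivity
    calc (J : ℝ)⁻¹ * ((1 - c)⁻¹ * 4) ≤ (J : ℝ)⁻¹ * (J * (ε / 2)) := by gcongr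
      _ = _ := by field_simp
  set W : ℝ := 2 ^ J with hW
  have hW1 : 1 ≤ W := one_le_pow₀ (by norm_num)
  refine ⟨W, hW1, fun R hR => ?_⟩
  set ε' : ℝ := min (ε / 4) (1 / 4) with hε'
  have hε'0 : 0 < ε' := lt_min (by positivity) (by norm_num)
  -- the parameters `t j = 2^j / 2^J ≤ 1/2`
  set t : ℕ → ℝ := fun j => 2 ^ j / W with ht
  have ht0 : ∀ j, 0 < t j := fun j => by simp only [ht]; positivity
  have ht2 : ∀ j ∈ Finset.range J, t j ≤ 1 / 2 := by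
    intro j hj
    rw [Finset.mem_range] at hj
    simp only [ht, hW]
    rw [div_le_iff₀ (by positivity)]
    have : (2 : ℝ) ^ (j + 1) ≤ 2 ^ J := pow_le_pow_right₀ (by norm_num) (by omega)
    rw [pow_succ] at this
    linarith
  have hex : ∀ j : ℕ, ∃ p : ℂ[X], j ∈ Finset.range J → ∀ z ∈ KH c R,
      ‖p.eval z - (1 - (t j : ℂ) * z)⁻¹‖ ≤ ε' := by
    intro j
    by_cases hj : j ∈ Finset.range J
    · obtain ⟨p, hp⟩ := approx_inv hc0 hc hR (ht0 j).le (ht2 j hj) hε'0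
      exact ⟨p, fun _ => hp⟩
    · exact ⟨0, fun h => absurd h hj⟩
  choose P hP using hex
  set Q : ℂ[X] := C ((J : ℂ)⁻¹) * ∑ j ∈ Finset.range J, (1 - P j) with hQ
  set ψ : ℂ → ℂ := fun z => (J : ℂ)⁻¹ * ∑ j ∈ Finset.range J, (1 - (1 - (t j : ℂ) * z)⁻¹) with hψ
  have hJc : ‖(J : ℂ)⁻¹‖ = (J : ℝ)⁻¹ := by simp
  have hQψ : ∀ z ∈ KH c R, ‖Q.eval z - ψ z‖ ≤ ε' := by
    intro z hz
    have e : Q.eval z - ψ z = (J : ℂ)⁻¹ * ∑ j ∈ Finset.range J,
        ((1 - (t j : ℂ) * z)⁻¹ - (P j).eval z) := by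
      simp only [hQ, hψ, eval_mul, eval_C, eval_finsetSum, eval_sub, eval_one]
      rw [← mul_sub, ← Finset.sum_sub_distrib]
      congr 1
      refine Finset.sum_congr rfl (fun j _ => by ring)
    rw [e, norm_mul, hJc]
    calc _ ≤ (J : ℝ)⁻¹ * ∑ j ∈ Finset.range J, ε' := by
          gcongr
          refine (norm_sum_le _ _).trans (Finset.sum_le_sum (fun j hj => ?_))
          rw [norm_sub_rev]; exact hP j hj z hz
      _ = ε' := by simp; field_simp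
  have h0K : (0 : ℂ) ∈ KH c R := by
    refine ⟨by simp; linarith, Or.inl (by simp)⟩
  have hψ0 : ψ 0 = 0 := by simp [hψ]
  have hQ0 : ‖Q.eval 0‖ ≤ ε' := by
    have := hQψ 0 h0K
    rwa [hψ0, sub_zero] at this
  have hpψ : ∀ z ∈ KH c R, ‖(Q - C (Q.eval 0)).eval z - ψ z‖ ≤ 2 * ε' := by
    intro z hz
    rw [eval_sub, eval_C]
    have h1 := hQψ z hz
    have h2 : Q.eval z - Q.eval 0 - ψ z = (Q.eval z - ψ z) - Q.eval 0 := by ring
    rw [h2]
    exact (norm_sub_le _ _).trans (by linarith)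
  have hε1 : 2 * ε' ≤ ε / 2 := by
    have := min_le_left (ε / 4) (1 / 4 : ℝ)
    linarith
  have hε2 : 2 * ε' ≤ 1 / 2 := by
    have := min_le_right (ε / 4) (1 / 4 : ℝ)
    linarith
  -- real part bounds for ψ
  have hψre : ∀ z : ℂ, (ψ z).re = (J : ℝ)⁻¹ * ∑ j ∈ Finset.range J,
      (1 - (1 - (t j : ℂ) * z)⁻¹).re := by
    intro z
    simp only [hψ]
    rw [← Complex.re_sum]
    have : (J : ℂ)⁻¹ = (((J : ℝ)⁻¹ : ℝ) : ℂ) := by push_cast; rfl
    rw [this, Complex.re_ofReal_mul]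
  have hsumle : ∀ z : ℂ, z ≠ 0 → ∑ j ∈ Finset.range J, min (t j * ‖z‖) (t j * ‖z‖)⁻¹ ≤ 4 := by
    intro z hz
    have hzn : 0 < ‖z‖ := norm_pos_iff.2 hz
    have h := dyadic_sum' J (‖z‖ / W) (by positivity)
    refine le_trans (le_of_eq ?_) h
    refine Finset.sum_congr rfl (fun j _ => ?_)
    have : t j * ‖z‖ = 2 ^ j * (‖z‖ / W) := by simp only [ht]; ring
    rw [this]
  have hψlow : ∀ z : ℂ, z.re ≤ c * ‖z‖ → -(ε / 2) ≤ (ψ z).re := by
    intro z hz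
    rcases eq_or_ne z 0 with rfl | hz0
    · rw [hψ0]; simp; positivity
    rw [hψre]
    have h1 : ∑ j ∈ Finset.range J, (-((1 - c)⁻¹ * min (t j * ‖z‖) (t j * ‖z‖)⁻¹)) ≤
        ∑ j ∈ Finset.range J, (1 - (1 - (t j : ℂ) * z)⁻¹).re :=
      Finset.sum_le_sum (fun j _ => (term_lower hc0 hc hz (ht0 j) hz0).1)
    rw [Finset.sum_neg_distrib, ← Finset.mul_sum] at h1
    have h2 : (1 - c)⁻¹ * ∑ j ∈ Finset.range J, min (t j * ‖z‖) (t j * ‖z‖)⁻¹ ≤ (1 - c)⁻¹ * 4 := by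
      gcongr; exact hsumle z hz0
    have h3 : (J : ℝ)⁻¹ * (-((1 - c)⁻¹ * 4)) ≤
        (J : ℝ)⁻¹ * ∑ j ∈ Finset.range J, (1 - (1 - (t j : ℂ) * z)⁻¹).re := by
      gcongr; linarith
    linarith
  have hψhigh : ∀ z : ℂ, W ≤ ‖z‖ → z.re ≤ c * ‖z‖ → 1 - ε / 2 ≤ (ψ z).re := by
    intro z hzW hz
    have hz0 : z ≠ 0 := by
      rintro rfl
      rw [norm_zero] at hzW
      linarith
    rw [hψre]
    have h1 : ∑ j ∈ Finset.range J, (1 - ((1 - c)⁻¹ * min (t j * ‖z‖) (t j * ‖z‖)⁻¹)) ≤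
        ∑ j ∈ Finset.range J, (1 - (1 - (t j : ℂ) * z)⁻¹).re := by
      refine Finset.sum_le_sum (fun j _ => (term_lower hc0 hc hz (ht0 j) hz0).2 ?_)
      simp only [ht]
      rw [div_mul_eq_mul_div, le_div_iff₀ (by positivity), one_mul]
      have : (1 : ℝ) ≤ 2 ^ j := one_le_pow₀ (by norm_num)
      nlinarith [norm_nonneg z]
    rw [Finset.sum_sub_distrib, ← Finset.mul_sum] at h1
    simp only [Finset.sum_const, Finset.card_range, nsmul_eq_mul, mul_one] at h1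
    have h2 : (1 - c)⁻¹ * ∑ j ∈ Finset.range J, min (t j * ‖z‖) (t j * ‖z‖)⁻¹ ≤ (1 - c)⁻¹ * 4 := by
      gcongr; exact hsumle z hz0
    have h3 : (J : ℝ)⁻¹ * (J - ((1 - c)⁻¹ * 4)) ≤
        (J : ℝ)⁻¹ * ∑ j ∈ Finset.range J, (1 - (1 - (t j : ℂ) * z)⁻¹).re := by
      gcongr; linarith
    rw [mul_sub, inv_mul_cancel₀ hJ0.ne'] at h3
    linarith
  -- bound for ψ on the unit disc
  have hψdisc : ∀ z : ℂ, ‖z‖ ≤ 1 → ‖ψ z‖ ≤ 1 := by
    intro z hz
    simp only [hψ]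
    rw [norm_mul, hJc]
    calc _ ≤ (J : ℝ)⁻¹ * ∑ j ∈ Finset.range J, (1 : ℝ) := by
          gcongr
          refine (norm_sum_le _ _).trans (Finset.sum_le_sum (fun j hj => ?_))
          have hlb := lower_disc hz (ht0 j).le (ht2 j hj)
          have hpos : 0 < ‖1 - (t j : ℂ) * z‖ := lt_of_lt_of_le (by norm_num) hlb
          have hne : (1 - (t j : ℂ) * z) ≠ 0 := norm_pos_iff.1 hpos
          have e : 1 - (1 - (t j : ℂ) * z)⁻¹ = -((t j : ℂ) * z) * (1 - (t j : ℂ) * z)⁻¹ := by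
            field_simp
            ring
          rw [e, norm_mul, norm_neg, norm_mul, Complex.norm_real, Real.norm_of_nonneg (ht0 j).le,
            norm_inv]
          have h3 : ‖1 - (t j : ℂ) * z‖⁻¹ ≤ 2 := by
            rw [inv_le_comm₀ hpos (by norm_num)]; linarith
          have h4 : t j * ‖z‖ ≤ 1 / 2 := by
            have := ht2 j hj
            nlinarith [norm_nonneg z, ht0 j]
          calc t j * ‖z‖ * ‖1 - (t j : ℂ) * z‖⁻¹ ≤ 1 / 2 * 2 := by gcongr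
            _ = 1 := by norm_num
      _ = 1 := by simp; field_simp
  refine ⟨Q - C (Q.eval 0), ?_, ?_, ?_⟩
  · intro w hw
    set p := Q - C (Q.eval 0) with hp
    have hp0 : p.eval 0 = 0 := by simp [hp]
    have hmap : ∀ z ∈ Metric.ball (0 : ℂ) 1, ‖p.eval z‖ ≤ 3 / 2 := by
      intro z hz
      rw [mem_ball_zero_iff] at hz
      have h1 := hpψ z ⟨hz.le.trans hR, Or.inl hz.le⟩
      have h2 := hψdisc z hz.le
      have h3 : ‖p.eval z‖ ≤ ‖p.eval z - ψ z‖ + ‖ψ z‖ := by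
        have := norm_add_le (p.eval z - ψ z) (ψ z)
        simpa using this
      linarith
    rcases hw.lt_or_eq with hw1 | hw1
    · have hd : DifferentiableOn ℂ (fun z => p.eval z) (Metric.ball (0 : ℂ) 1) :=
        p.differentiable.differentiableOn
      have hmt : Set.MapsTo (fun z => p.eval z) (Metric.ball (0 : ℂ) 1)
          (Metric.closedBall ((fun z => p.eval z) 0) 2) := by
        intro z hz
        have := hmap z hz
        simp only [hp0, mem_closedBall_zero_iff]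
        linarith
      have := Complex.dist_le_div_mul_dist_of_mapsTo_ball hd hmt (by simpa using hw1 : w ∈ Metric.ball (0 : ℂ) 1)
      simp only [hp0, dist_zero_right] at this
      linarith
    · have h1 := hpψ w ⟨hw1.le.trans hR, Or.inl hw1.le⟩
      have h2 := hψdisc w hw1.le
      have h3 : ‖p.eval w‖ ≤ ‖p.eval w - ψ w‖ + ‖ψ w‖ := by
        have := norm_add_le (p.eval w - ψ w) (ψ w)
        simpa using this
      rw [hw1]
      linarith
  · intro w hwR hw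
    have h1 := hpψ w ⟨hwR, Or.inr hw⟩
    have h2 := hψlow w hw
    have h3 := (abs_le.1 ((Complex.abs_re_le_norm _).trans h1)).1
    rw [Complex.sub_re] at h3
    linarith
  · intro w hwW hwR hw
    have h1 := hpψ w ⟨hwR, Or.inr hw⟩
    have h2 := hψhigh w hwW hw
    have h3 := (abs_le.1 ((Complex.abs_re_le_norm _).trans h1)).1
    rw [Complex.sub_re] at h3
    linarith

end Pool.Agent.H903R3
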