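import Mathlib
import Pool.Agent.H903R3.Key

/-!
The inductive step in the ball of `ℂⁿ`.
-/

set_option autoImplicit false

open MeasureTheory Filter Topology Polynomial

namespace Pool.Agent.H903R3

/-- Euclidean norm on `Fin n → ℂ` -/
noncomputable def en {n : ℕ} (z : Fin n → ℂ) : ℝ := Real.sqrt (∑ i, ‖z i‖ ^ 2)

/-- the linear functional with coefficients `conj u` -/
noncomputable def lf {n : ℕ} (u z : Fin n → ℂ) : ℂ := ∑ i, (starRingEnd ℂ) (u i) * z i

lemma en_nonneg {n : ℕ} (z : Fin n → ℂ) : 0 ≤ en z := Real.sqrt_nonneg _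

lemma en_sq {n : ℕ} (z : Fin n → ℂ) : en z ^ 2 = ∑ i, ‖z i‖ ^ 2 :=
  Real.sq_sqrt (Finset.sum_nonneg (fun _ _ => by positivity))

lemma continuous_en {n : ℕ} : Continuous (en (n := n)) := by
  unfold en; fun_prop

lemma continuous_lf {n : ℕ} (u : Fin n → ℂ) : Continuous (lf u) := by
  unfold lf; fun_prop

lemma differentiable_lf {n : ℕ} (u : Fin n → ℂ) : Differentiable ℂ (lf u) := by
  unfold lf; fun_prop

lemma lf_smul {n : ℕ} (u z : Fin n → ℂ) (a : ℂ) : lf u (a • z) = a * lf u z := by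
  unfold lf
  rw [Finset.mul_sum]
  refine Finset.sum_congr rfl (fun i _ => ?_)
  simp only [Pi.smul_apply, smul_eq_mul]
  ring

lemma en_smul {n : ℕ} (z : Fin n → ℂ) (a : ℂ) : en (a • z) = ‖a‖ * en z := by
  unfold en
  have : ∑ i, ‖(a • z) i‖ ^ 2 = ‖a‖ ^ 2 * ∑ i, ‖z i‖ ^ 2 := by
    rw [Finset.mul_sum]
    refine Finset.sum_congr rfl (fun i _ => ?_)
    simp only [Pi.smul_apply, smul_eq_mul, norm_mul]
    ring
  rw [this, Real.sqrt_mul (by positivity), Real.sqrt_sq (norm_nonneg a)]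

lemma norm_lf_le {n : ℕ} (u z : Fin n → ℂ) : ‖lf u z‖ ≤ en u * en z := by
  unfold lf en
  refine (norm_sum_le _ _).trans ?_
  have := Real.sum_mul_le_sqrt_mul_sqrt Finset.univ (fun i => ‖u i‖) (fun i => ‖z i‖)
  refine le_trans (le_of_eq ?_) this
  refine Finset.sum_congr rfl (fun i _ => ?_)
  rw [norm_mul, RCLike.norm_conj]

lemma lf_self {n : ℕ} (u : Fin n → ℂ) : lf u u = ((en u ^ 2 : ℝ) : ℂ) := by
  rw [en_sq]
  unfold lf
  push_cast
  refine Finset.sum_congr rfl (fun i _ => ?_)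
  rw [← Complex.normSq_eq_conj_mul_self, Complex.normSq_eq_norm_sq]
  push_cast; rfl

/-- finite net of the sphere -/
lemma exists_net (n : ℕ) {a : ℝ} (ha : a < 1) :
    ∃ T : Finset (Fin n → ℂ), (∀ u ∈ T, en u = 1) ∧
      ∀ ζ : Fin n → ℂ, en ζ = 1 → ∃ u ∈ T, a < ‖lf u ζ‖ := by
  set S : Set (Fin n → ℂ) := {ζ | en ζ = 1} with hS
  have hSc : IsCompact S := by
    apply Metric.isCompact_of_isClosed_isBounded
    · exact isClosed_eq continuous_en continuous_const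
    · refine (Metric.isBounded_closedBall (x := (0 : Fin n → ℂ)) (r := 1)).subset ?_
      intro z hz
      rw [mem_closedBall_zero_iff, pi_norm_le_iff_of_nonneg zero_le_one]
      intro i
      have h1 : ‖z i‖ ^ 2 ≤ ∑ i, ‖z i‖ ^ 2 :=
        Finset.single_le_sum (f := fun i => ‖z i‖ ^ 2) (fun _ _ => by positivity)
          (Finset.mem_univ i)
      have h2 : en z ^ 2 = 1 := by
        have : en z = 1 := hz
        rw [this]; norm_num
      rw [en_sq] at h2
      nlinarith [norm_nonneg (z i)]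
  obtain ⟨T, hT1⟩ := hSc.elim_nhds_subcover' (fun u hu => {ζ | a < ‖lf u ζ‖}) (by
    intro u hu
    apply (isOpen_lt continuous_const (continuous_lf u).norm).mem_nhds
    simp only [Set.mem_ofPred_eq]
    rw [lf_self]
    have : en u = 1 := hu
    rw [this]; simpa using ha)
  refine ⟨T.image (fun u : S => (u : Fin n → ℂ)), ?_, ?_⟩
  · intro u hu
    rw [Finset.mem_image] at hu
    obtain ⟨v, -, rfl⟩ := hu
    exact v.2
  · intro ζ hζ
    have := hT1 (show ζ ∈ S from hζ)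
    simp only [Set.mem_iUnion] at this
    obtain ⟨u, hu, h⟩ := this
    exact ⟨u, Finset.mem_image_of_mem _ hu, h⟩

/-- multiplication by a unimodular scalar preserves the volume -/
lemma measurePreserving_rot {n : ℕ} (a : Circle) :
    MeasurePreserving (fun z : Fin n → ℂ => (a : ℂ) • z) volume volume := by
  have h : ∀ _i : Fin n, MeasurePreserving (fun w : ℂ => (a : ℂ) * w) volume volume := by
    intro _
    exact (rotation a).measurePreserving
  exact volume_preserving_pi h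

/-- There is `c < 1` such that the sector `Re w > c |w|` is smaller than `1/M` of a full turn. -/
lemma exists_sector (M : ℕ) (hM : 0 < M) : ∃ c : ℝ, 0 ≤ c ∧ c < 1 ∧
    ∀ j k : ℕ, j < M → k < M → j ≠ k → ∀ w : ℂ,
      ¬ (c * ‖w‖ < (Complex.exp (2 * Real.pi * Complex.I / M) ^ j * w).re ∧
         c * ‖w‖ < (Complex.exp (2 * Real.pi * Complex.I / M) ^ k * w).re) := by
  set ω : ℂ := Complex.exp (2 * Real.pi * Complex.I / M) with hω
  have hprim : IsPrimitiveRoot ω M := Complex.isPrimitiveRoot_exp M hM.ne'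
  have hωn : ‖ω‖ = 1 := hprim.norm'_eq_one hM.ne'
  -- minimal distance
  obtain ⟨d, hd0, hd⟩ : ∃ d : ℝ, 0 < d ∧ ∀ j k : ℕ, j < M → k < M → j ≠ k → d ≤ ‖ω ^ j - ω ^ k‖ := by
    set F : Finset (ℕ × ℕ) := ((Finset.range M) ×ˢ (Finset.range M)).filter (fun p => p.1 ≠ p.2) with hF
    have hpos : ∀ p ∈ F, 0 < ‖ω ^ p.1 - ω ^ p.2‖ := by
      intro p hp
      rw [hF, Finset.mem_filter, Finset.mem_product, Finset.mem_range, Finset.mem_range] at hp
      rw [norm_pos_iff, sub_ne_zero]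
      intro h
      exact hp.2 (hprim.pow_inj hp.1.1 hp.1.2 h)
    rcases F.eq_empty_or_nonempty with h | h
    · refine ⟨1, one_pos, fun j k hj hk hjk => ?_⟩
      exfalso
      have : (j, k) ∈ F := by
        rw [hF, Finset.mem_filter, Finset.mem_product, Finset.mem_range, Finset.mem_range]
        exact ⟨⟨hj, hk⟩, hjk⟩
      rw [h] at this
      simp at this
    · obtain ⟨p, hp, hmin⟩ := F.exists_min_image (fun p => ‖ω ^ p.1 - ω ^ p.2‖) h
      refine ⟨_, hpos p hp, fun j k hj hk hjk => hmin (j, k) ?_⟩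
      rw [hF, Finset.mem_filter, Finset.mem_product, Finset.mem_range, Finset.mem_range]
      exact ⟨⟨hj, hk⟩, hjk⟩
  set c : ℝ := max 0 (1 - d ^ 2 / 8) with hc
  refine ⟨c, le_max_left _ _, max_lt one_pos (by nlinarith), ?_⟩
  rintro j k hj hk hjk w ⟨h1, h2⟩
  have hc8 : 8 * (1 - c) ≤ d ^ 2 := by
    have := le_max_right 0 (1 - d ^ 2 / 8)
    rw [← hc] at this
    linarith
  have hw0 : w ≠ 0 := by
    rintro rfl
    simp at h1
  have hwn : 0 < ‖w‖ := norm_pos_iff.2 hw0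
  have hdist := hd j k hj hk hjk
  -- distance from `ω ^ j * w` to `‖w‖`
  have key : ∀ v : ℂ, ‖v‖ = ‖w‖ → c * ‖w‖ < v.re → ‖v - (‖w‖ : ℂ)‖ ^ 2 < 2 * (1 - c) * ‖w‖ ^ 2 := by
    intro v hv hvr
    rw [Complex.sq_norm, Complex.normSq_apply]
    have h3 : ‖v‖ ^ 2 = v.re ^ 2 + v.im ^ 2 := by
      rw [Complex.sq_norm, Complex.normSq_apply]; ring
    simp only [Complex.sub_re, Complex.ofReal_re, Complex.sub_im, Complex.ofReal_im, sub_zero]
    rw [hv] at h3
    nlinarith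
  have hn : ∀ m : ℕ, ‖ω ^ m * w‖ = ‖w‖ := by
    intro m
    rw [norm_mul, norm_pow, hωn, one_pow, one_mul]
  have k1 := key _ (hn j) h1
  have k2 := key _ (hn k) h2
  have h5 : ‖ω ^ j * w - ω ^ k * w‖ ≤ ‖ω ^ j * w - (‖w‖ : ℂ)‖ + ‖ω ^ k * w - (‖w‖ : ℂ)‖ := by
    have : ω ^ j * w - ω ^ k * w = (ω ^ j * w - (‖w‖ : ℂ)) - (ω ^ k * w - (‖w‖ : ℂ)) := by ring
    rw [this]
    exact norm_sub_le _ _
  have h6 : ω ^ j * w - ω ^ k * w = (ω ^ j - ω ^ k) * w := by ring
  rw [h6, norm_mul] at h5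
  have h7 : d * ‖w‖ ≤ ‖ω ^ j * w - (‖w‖ : ℂ)‖ + ‖ω ^ k * w - (‖w‖ : ℂ)‖ :=
    le_trans (by gcongr) h5
  have h8 : (d * ‖w‖) ^ 2 ≤ (‖ω ^ j * w - (‖w‖ : ℂ)‖ + ‖ω ^ k * w - (‖w‖ : ℂ)‖) ^ 2 := by
    gcongr
  have h9 : (‖ω ^ j * w - (‖w‖ : ℂ)‖ + ‖ω ^ k * w - (‖w‖ : ℂ)‖) ^ 2 ≤
      2 * (‖ω ^ j * w - (‖w‖ : ℂ)‖ ^ 2 + ‖ω ^ k * w - (‖w‖ : ℂ)‖ ^ 2) := by
    nlinarith [sq_nonneg (‖ω ^ j * w - (‖w‖ : ℂ)‖ - ‖ω ^ k * w - (‖w‖ : ℂ)‖)]
  have h10 : (d * ‖w‖) ^ 2 < 8 * (1 - c) * ‖w‖ ^ 2 := by linarith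
  have h11 : 8 * (1 - c) * ‖w‖ ^ 2 ≤ d ^ 2 * ‖w‖ ^ 2 := by gcongr
  rw [mul_pow] at h10
  linarith

/-- the set of `z` for which `lf u z ^ N` lies in the sector -/
def bad {n : ℕ} (c : ℝ) (N : ℕ) (u : Fin n → ℂ) : Set (Fin n → ℂ) :=
  {z | c * ‖lf u z ^ N‖ < (lf u z ^ N).re}

lemma measurableSet_bad {n : ℕ} (c : ℝ) (N : ℕ) (u : Fin n → ℂ) : MeasurableSet (bad c N u) := by
  apply (isOpen_lt _ _).measurableSet
  · exact continuous_const.mul ((continuous_lf u).pow N).norm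
  · exact Complex.continuous_re.comp ((continuous_lf u).pow N)

/-- small measure of the bad set -/
lemma measure_bad {n : ℕ} (M : ℕ) (hM : 0 < M) {c : ℝ}
    (hc : ∀ j k : ℕ, j < M → k < M → j ≠ k → ∀ w : ℂ,
      ¬ (c * ‖w‖ < (Complex.exp (2 * Real.pi * Complex.I / M) ^ j * w).re ∧
         c * ‖w‖ < (Complex.exp (2 * Real.pi * Complex.I / M) ^ k * w).re))
    (N : ℕ) (hN : 0 < N) (u : Fin n → ℂ) (R : ℝ) :
    (M : ENNReal) * volume (bad c N u ∩ Metric.ball 0 R) ≤ volume (Metric.ball (0 : Fin n → ℂ) R) := by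
  set ω : ℂ := Complex.exp (2 * Real.pi * Complex.I / M) with hω
  set ρ : Circle := Circle.exp (2 * Real.pi / (M * N)) with hρ
  have hρN : (ρ : ℂ) ^ N = ω := by
    rw [hρ, Circle.coe_exp, ← Complex.exp_nat_mul, hω]
    congr 1
    have h1 : (M : ℂ) ≠ 0 := by exact_mod_cast hM.ne'
    have h2 : (N : ℂ) ≠ 0 := by exact_mod_cast hN.ne'
    push_cast
    field_simp
  set T : ℕ → Set (Fin n → ℂ) := fun k =>
    (fun z : Fin n → ℂ => ((ρ ^ k : Circle) : ℂ) • z) ⁻¹' (bad c N u ∩ Metric.ball 0 R) with hT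
  have hmeas : MeasurableSet (bad c N u ∩ Metric.ball (0 : Fin n → ℂ) R) :=
    (measurableSet_bad c N u).inter Metric.isOpen_ball.measurableSet
  have hTm : ∀ k, MeasurableSet (T k) := fun k =>
    (measurePreserving_rot (ρ ^ k)).measurable hmeas
  have hTv : ∀ k, volume (T k) = volume (bad c N u ∩ Metric.ball 0 R) := fun k =>
    (measurePreserving_rot (ρ ^ k)).measure_preimage hmeas.nullMeasurableSet
  have hTs : ∀ k, T k ⊆ Metric.ball 0 R := by
    intro k z hz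
    have h1 := hz.2
    rw [mem_ball_zero_iff, norm_smul, Circle.norm_coe, one_mul] at h1
    rwa [mem_ball_zero_iff]
  have hTk : ∀ k z, z ∈ T k → c * ‖lf u z ^ N‖ < (ω ^ k * lf u z ^ N).re := by
    intro k z hz
    have h1 : c * ‖lf u (((ρ ^ k : Circle) : ℂ) • z) ^ N‖ < (lf u (((ρ ^ k : Circle) : ℂ) • z) ^ N).re := hz.1
    have h2 : lf u (((ρ ^ k : Circle) : ℂ) • z) ^ N = ω ^ k * lf u z ^ N := by
      rw [lf_smul, mul_pow, Circle.coe_pow, ← pow_mul, mul_comm k N, pow_mul, hρN]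
    rw [h2, norm_mul, norm_pow] at h1
    have h3 : ‖ω‖ = 1 := by rw [← hρN, norm_pow, Circle.norm_coe, one_pow]
    rw [h3, one_pow, one_mul] at h1
    exact h1
  have hdisj : Set.PairwiseDisjoint (↑(Finset.range M)) T := by
    intro j hj k hk hjk
    rw [Finset.mem_coe, Finset.mem_range] at hj hk
    rw [Function.onFun, Set.disjoint_left]
    intro z hz1 hz2
    exact hc j k hj hk hjk (lf u z ^ N) ⟨hTk j z hz1, hTk k z hz2⟩
  calc (M : ENNReal) * volume (bad c N u ∩ Metric.ball 0 R)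
      = ∑ k ∈ Finset.range M, volume (T k) := by
        simp [hTv]
    _ = volume (⋃ k ∈ Finset.range M, T k) := (measure_biUnion_finset hdisj (fun k _ => hTm k)).symm
    _ ≤ volume (Metric.ball (0 : Fin n → ℂ) R) := by
        apply measure_mono
        intro z hz
        simp only [Set.mem_iUnion] at hz
        obtain ⟨k, -, h⟩ := hz
        exact hTs k h

/-- **The step.** -/
lemma step (n : ℕ) {r : ℝ} (hr0 : 0 < r) (hr1 : r < 1) {δ : ℝ} (hδ : 0 < δ) (Rb : ℝ)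
    {ε : ENNReal} (hε : 0 < ε) :
    ∃ (g : (Fin n → ℂ) → ℂ) (r' : ℝ) (B : Set (Fin n → ℂ)), Differentiable ℂ g ∧ r' < 1 ∧
      (∀ z, en z ≤ r → ‖g z‖ ≤ δ) ∧
      (∀ z, z ∉ B → ∀ t : ℝ, 0 ≤ t → t ≤ 1 → en z = 1 → -δ ≤ (g ((t : ℂ) • z)).re) ∧
      (∀ z, z ∉ B → ∀ t : ℝ, r' ≤ t → t ≤ 1 → en z = 1 → 1 - δ ≤ (g ((t : ℂ) • z)).re) ∧
      volume (B ∩ Metric.ball 0 Rb) ≤ ε ∧
      (∀ z, z ∈ B → ∀ a : ℝ, 0 < a → (a : ℂ) • z ∈ B) := by
  -- radii
  set a : ℝ := (1 + r) / 2 with ha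
  have hra : r < a := by rw [ha]; linarith
  have ha1 : a < 1 := by rw [ha]; linarith
  have ha0 : 0 < a := hr0.trans hra
  set r' : ℝ := (1 + r / a) / 2 with hr'
  have hraa : r / a < 1 := (div_lt_one ha0).2 hra
  have hr'1 : r' < 1 := by rw [hr']; linarith
  have hr'2 : r / a < r' := by rw [hr']; linarith
  have hr'0 : 0 < r' := lt_trans (by positivity) hr'2
  set b : ℝ := r' * a with hb
  have hrb : r < b := by
    rw [div_lt_iff₀ ha0] at hr'2
    exact hr'2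
  have hb0 : 0 < b := hr0.trans hrb
  have hb1 : b < 1 := by
    rw [hb]; nlinarith
  set σ : ℝ := Real.sqrt (r * b) with hσ
  have hσ2 : σ ^ 2 = r * b := Real.sq_sqrt (by positivity)
  have hσ0 : 0 < σ := Real.sqrt_pos.2 (by positivity)
  have hrσ : r < σ := by
    apply lt_of_pow_lt_pow_left₀ 2 hσ0.le
    rw [hσ2]; nlinarith
  have hσb : σ < b := by
    apply lt_of_pow_lt_pow_left₀ 2 hb0.le
    rw [hσ2]; nlinarith
  have hσ1 : σ < 1 := hσb.trans hb1
  -- net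
  obtain ⟨T, hT1, hT2⟩ := exists_net n ha1
  set m : ℝ := (T.card : ℝ) + 1 with hm
  have hm0 : 0 < m := by positivity
  -- sector
  have hvol : volume (Metric.ball (0 : Fin n → ℂ) Rb) < ⊤ := measure_ball_lt_top
  obtain ⟨M, hM⟩ : ∃ M : ℕ, 0 < M ∧
      (T.card : ENNReal) * (volume (Metric.ball (0 : Fin n → ℂ) Rb) / M) ≤ ε := by
    have h1 : (T.card : ENNReal) * volume (Metric.ball (0 : Fin n → ℂ) Rb) / ε < ⊤ := by
      apply ENNReal.div_lt_top
      · exact ENNReal.mul_ne_top (ENNReal.natCast_ne_top _) hvol.ne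
      · exact hε.ne'
    obtain ⟨M, hM⟩ := ENNReal.exists_nat_gt h1.ne
    refine ⟨M, ?_, ?_⟩
    · rcases Nat.eq_zero_or_pos M with h | h
      · rw [h] at hM
        simp at hM
      · exact h
    · have hM0 : (M : ENNReal) ≠ 0 := by
        rintro h
        rw [h] at hM
        simp at hM
      rw [← mul_div_assoc]
      apply ENNReal.div_le_of_le_mul
      rcases eq_or_ne ε ⊤ with h | h
      · rw [h, ENNReal.top_mul hM0]; exact le_top
      · have := hM.le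
        rw [ENNReal.div_le_iff hε.ne' h] at this
        rw [mul_comm ε]
        exact this
  obtain ⟨hM0, hMε⟩ := hM
  obtain ⟨c, hc0, hc1, hc⟩ := exists_sector M hM0
  -- key polynomials
  obtain ⟨W, hW1, hW⟩ := key hc0 hc1 (show 0 < δ / m by positivity)
  -- the exponent
  obtain ⟨N, hN0, hN1, hN2⟩ : ∃ N : ℕ, 0 < N ∧ 2 * m * (r / σ) ^ N ≤ δ ∧ W ≤ (b / σ) ^ N := by
    have h1 : Tendsto (fun N : ℕ => 2 * m * (r / σ) ^ N) atTop (𝓝 (2 * m * 0)) :=
      (tendsto_pow_atTop_nhds_zero_of_lt_one (by positivity) ((div_lt_one hσ0).2 hrσ)).const_mul _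
    rw [mul_zero] at h1
    have h2 : Tendsto (fun N : ℕ => (b / σ) ^ N) atTop atTop :=
      tendsto_pow_atTop_atTop_of_one_lt ((one_lt_div hσ0).2 hσb)
    obtain ⟨N, h3, h4, h5⟩ := ((h1.eventually_le_const hδ).and
      ((h2.eventually_ge_atTop W).and (eventually_gt_atTop 0))).exists
    exact ⟨N, h5, h3, h4⟩
  have hR1 : 1 ≤ (1 / σ) ^ N := one_le_pow₀ ((one_le_div hσ0).2 hσ1.le)
  obtain ⟨p, hp1, hp2, hp3⟩ := hW _ hR1
  set w : (Fin n → ℂ) → (Fin n → ℂ) → ℂ := fun u z => lf u z ^ N / ((σ ^ N : ℝ) : ℂ) with hw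
  have hσN : 0 < σ ^ N := by positivity
  have hwn : ∀ u z, ‖w u z‖ = (‖lf u z‖ / σ) ^ N := by
    intro u z
    simp only [hw]
    rw [norm_div, norm_pow, Complex.norm_real, Real.norm_of_nonneg hσN.le, div_pow]
  set g : (Fin n → ℂ) → ℂ := fun z => ∑ u ∈ T, p.eval (w u z) with hg
  refine ⟨g, r', ⋃ u ∈ T, bad c N u, ?_, hr'1, ?_, ?_, ?_, ?_, ?_⟩
  · have hwd : ∀ u, Differentiable ℂ (w u) := by
      intro u
      have h := ((differentiable_lf u).fun_pow N).mul_const ((((σ ^ N : ℝ) : ℂ))⁻¹)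
      simp only [hw, div_eq_mul_inv]
      exact h
    simp only [hg]
    apply Differentiable.fun_sum
    intro u _
    exact p.differentiable.comp (hwd u)
  · intro z hz
    simp only [hg]
    have hb1 : ∀ u ∈ T, ‖p.eval (w u z)‖ ≤ 2 * (r / σ) ^ N := by
      intro u hu
      have h1 : ‖lf u z‖ ≤ r := by
        have := norm_lf_le u z
        rw [hT1 u hu, one_mul] at this
        linarith
      have h2 : ‖w u z‖ ≤ (r / σ) ^ N := by
        rw [hwn]; gcongr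
      have h3 : (r / σ) ^ N ≤ 1 := pow_le_one₀ (by positivity) ((div_le_one hσ0).2 hrσ.le)
      exact (hp1 _ (h2.trans h3)).trans (by gcongr)
    refine (norm_sum_le _ _).trans ((Finset.sum_le_sum hb1).trans ?_)
    rw [Finset.sum_const, nsmul_eq_mul]
    refine le_trans ?_ hN1
    have : (T.card : ℝ) ≤ m := by rw [hm]; linarith
    calc (T.card : ℝ) * (2 * (r / σ) ^ N) ≤ m * (2 * (r / σ) ^ N) := by gcongr
      _ = _ := by ring
  all_goals
    have hgood : ∀ z, z ∉ ⋃ u ∈ T, bad c N u → ∀ t : ℝ, 0 ≤ t → t ≤ 1 → en z = 1 → ∀ u ∈ T,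
        ‖w u ((t : ℂ) • z)‖ ≤ (1 / σ) ^ N ∧ (w u ((t : ℂ) • z)).re ≤ c * ‖w u ((t : ℂ) • z)‖ := by
      intro z hz t ht0 ht1 hz1 u hu
      have hzu : (lf u z ^ N).re ≤ c * ‖lf u z ^ N‖ := by
        by_contra hcon
        push Not at hcon
        apply hz
        simp only [Set.mem_iUnion]
        exact ⟨u, hu, hcon⟩
      constructor
      · rw [hwn]
        have h1 := norm_lf_le u ((t : ℂ) • z)
        rw [hT1 u hu, one_mul, en_smul, hz1, mul_one, Complex.norm_real, Real.norm_of_nonneg ht0] at h1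
        gcongr
        linarith
      · have h1 : w u ((t : ℂ) • z) = ((t ^ N / σ ^ N : ℝ) : ℂ) * lf u z ^ N := by
          simp only [hw]
          rw [lf_smul]
          push_cast
          ring
        have h2 : 0 ≤ t ^ N / σ ^ N := by positivity
        rw [h1, Complex.re_ofReal_mul, norm_mul, Complex.norm_real, Real.norm_of_nonneg h2]
        calc t ^ N / σ ^ N * (lf u z ^ N).re ≤ t ^ N / σ ^ N * (c * ‖lf u z ^ N‖) := by gcongr
          _ = _ := by ring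
    have hmδ : (T.card : ℝ) * (δ / m) ≤ δ := by
      have : (T.card : ℝ) ≤ m := by rw [hm]; linarith
      calc (T.card : ℝ) * (δ / m) ≤ m * (δ / m) := by gcongr
        _ = δ := by field_simp
  · intro z hz t ht0 ht1 hz1
    simp only [hg]
    rw [Complex.re_sum]
    have h1 : ∑ u ∈ T, (-(δ / m)) ≤ ∑ u ∈ T, (p.eval (w u ((t : ℂ) • z))).re := by
      refine Finset.sum_le_sum (fun u hu => ?_)
      obtain ⟨h2, h3⟩ := hgood z hz t ht0 ht1 hz1 u hu
      exact hp2 _ h2 h3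
    rw [Finset.sum_const, nsmul_eq_mul] at h1
    linarith
  · intro z hz t ht0 ht1 hz1
    have ht0' : 0 ≤ t := hr'0.le.trans ht0
    obtain ⟨u0, hu0, hau⟩ := hT2 z hz1
    simp only [hg]
    rw [Complex.re_sum, ← Finset.add_sum_erase _ _ hu0]
    have h1 : ∑ u ∈ T.erase u0, (-(δ / m)) ≤ ∑ u ∈ T.erase u0, (p.eval (w u ((t : ℂ) • z))).re := by
      refine Finset.sum_le_sum (fun u hu => ?_)
      obtain ⟨h2, h3⟩ := hgood z hz t ht0' ht1 hz1 u (Finset.mem_of_mem_erase hu)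
      exact hp2 _ h2 h3
    have h2 : 1 - δ / m ≤ (p.eval (w u0 ((t : ℂ) • z))).re := by
      obtain ⟨h2, h3⟩ := hgood z hz t ht0' ht1 hz1 u0 hu0
      refine hp3 _ ?_ h2 h3
      refine hN2.trans ?_
      rw [hwn, lf_smul, norm_mul, Complex.norm_real, Real.norm_of_nonneg ht0']
      have hbt : b ≤ t * ‖lf u0 z‖ := by
        rw [hb]; gcongr
      gcongr
    rw [Finset.sum_const, nsmul_eq_mul, Finset.card_erase_of_mem hu0] at h1
    have h3 : 1 ≤ T.card := Finset.card_pos.2 ⟨u0, hu0⟩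
    have h4 : ((T.card - 1 : ℕ) : ℝ) = (T.card : ℝ) - 1 := by push_cast [h3]; ring
    rw [h4] at h1
    have h5 : 0 < δ / m := by positivity
    nlinarith
  · calc volume ((⋃ u ∈ T, bad c N u) ∩ Metric.ball 0 Rb)
        = volume (⋃ u ∈ T, (bad c N u ∩ Metric.ball 0 Rb)) := by
          congr 1
          simp only [Set.iUnion_inter]
      _ ≤ ∑ u ∈ T, volume (bad c N u ∩ Metric.ball 0 Rb) := measure_biUnion_finset_le _ _
      _ ≤ ∑ u ∈ T, volume (Metric.ball (0 : Fin n → ℂ) Rb) / M := by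
          refine Finset.sum_le_sum (fun u _ => ?_)
          have := measure_bad M hM0 hc N hN0 u Rb
          rw [ENNReal.le_div_iff_mul_le (Or.inl (by exact_mod_cast hM0.ne')) (Or.inl (ENNReal.natCast_ne_top M)),
            mul_comm]
          exact this
      _ = (T.card : ENNReal) * (volume (Metric.ball (0 : Fin n → ℂ) Rb) / M) := by
          rw [Finset.sum_const, nsmul_eq_mul]
      _ ≤ ε := hMε
  · intro z hz α hα
    simp only [Set.mem_iUnion] at hz ⊢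
    obtain ⟨u, hu, h⟩ := hz
    refine ⟨u, hu, ?_⟩
    change c * ‖lf u ((α : ℂ) • z) ^ N‖ < (lf u ((α : ℂ) • z) ^ N).re
    have h1 : lf u ((α : ℂ) • z) ^ N = ((α ^ N : ℝ) : ℂ) * lf u z ^ N := by
      rw [lf_smul, mul_pow]; push_cast; rfl
    have h2 : 0 < α ^ N := by positivity
    have h3 : c * ‖lf u z ^ N‖ < (lf u z ^ N).re := h
    rw [h1, norm_mul, Complex.norm_real, Real.norm_of_nonneg h2.le, Complex.re_ofReal_mul]
    calc c * (α ^ N * ‖lf u z ^ N‖) = α ^ N * (c * ‖lf u z ^ N‖) := by ring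
      _ < α ^ N * (lf u z ^ N).re := by gcongr

end Pool.Agent.H903R3
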