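import Mathlib
import Pool.Agent.H903R3.Step

/-!
Holomorphic functions in the ball of `ℂⁿ` whose real part tends to `+∞` along almost every radius.
-/

set_option autoImplicit false

open MeasureTheory Filter Topology

namespace Pool.Agent.H903R3

/-- A locally uniformly summable series of holomorphic functions is holomorphic (several
variables). -/
lemma differentiableAt_tsum {V : Type*} [NormedAddCommGroup V] [NormedSpace ℂ V]
    (F : ℕ → V → ℂ) (u : ℕ → ℝ) (hu : Summable u) (x : V) (R : ℝ) (hR : 0 < R)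
    (hF : ∀ j, Differentiable ℂ (F j)) (hb : ∀ j, ∀ y ∈ Metric.ball x R, ‖F j y‖ ≤ u j) :
    DifferentiableAt ℂ (fun y => ∑' j, F j y) x := by
  have hu0 : ∀ j, 0 ≤ u j := fun j => (norm_nonneg _).trans (hb j x (Metric.mem_ball_self hR))
  have hbd : ∀ j w, w ∈ Metric.ball x (R / 2) → ‖fderiv ℂ (F j) w‖ ≤ 2 * u j / (R / 2) := by
    intro j w hw
    apply Complex.norm_fderiv_le_div_of_mapsTo_ball (hF j).differentiableOn _ (by positivity)
    intro y hy
    have hyR : y ∈ Metric.ball x R := by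
      rw [Metric.mem_ball] at *
      have := dist_triangle y w x
      linarith
    have hwR : w ∈ Metric.ball x R := by
      rw [Metric.mem_ball] at *
      linarith
    rw [Metric.mem_closedBall, dist_eq_norm]
    refine (norm_sub_le _ _).trans ?_
    have h1 := hb j y hyR
    have h2 := hb j w hwR
    linarith
  have hsumm : Summable (fun j : ℕ => 2 * u j / (R / 2)) := (hu.mul_left 2).div_const _
  have h := hasFDerivAt_tsum_of_isPreconnected hsumm Metric.isOpen_ball
        (convex_ball x (R / 2)).isPreconnected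
        (fun j w _ => (hF j w).hasFDerivAt) hbd
        (Metric.mem_ball_self (by positivity : 0 < R / 2))
        (Summable.of_norm_bounded hu (fun j => hb j x (Metric.mem_ball_self hR)))
        (Metric.mem_ball_self (by positivity : 0 < R / 2))
  exact h.differentiableAt

/-- **Main construction.** -/
theorem main (n : ℕ) : ∃ G : (Fin n → ℂ) → ℂ,
    DifferentiableOn ℂ G {z | ∑ i, ‖z i‖ ^ 2 < 1} ∧
    ∀ᵐ z ∂(volume : Measure (Fin n → ℂ)), z ≠ 0 →
      Tendsto (fun r : ℝ => (G (((r / Real.sqrt (∑ i, ‖z i‖ ^ 2) : ℝ) : ℂ) • z)).re)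
        (𝓝[<] (1 : ℝ)) atTop := by
  set δ : ℕ → ℝ := fun j => (1 / 2 : ℝ) ^ (j + 1) with hδ
  have hδ0 : ∀ j, 0 < δ j := fun j => by simp only [hδ]; positivity
  have hδs : Summable δ := by
    simp only [hδ]
    exact (summable_nat_add_iff 1).2 (summable_geometric_of_lt_one (by norm_num) (by norm_num))
  have hδ1 : ∀ j, δ j ≤ 1 / 2 := fun j => by
    simp only [hδ]
    rw [pow_succ]
    have : (1 / 2 : ℝ) ^ j ≤ 1 := pow_le_one₀ (by norm_num) (by norm_num)
    linarith
  set r : ℕ → ℝ := fun j => 1 - δ j with hr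
  have hr0 : ∀ j, 0 < r j := fun j => by simp only [hr]; linarith [hδ1 j]
  have hr1 : ∀ j, r j < 1 := fun j => by simp only [hr]; linarith [hδ0 j]
  have hrmono : ∀ i j, i ≤ j → r i ≤ r j := by
    intro i j hij
    simp only [hr, hδ]
    have : (1 / 2 : ℝ) ^ (j + 1) ≤ (1 / 2) ^ (i + 1) :=
      pow_le_pow_of_le_one (by norm_num) (by norm_num) (by omega)
    linarith
  have hrlim : ∀ x : ℝ, x < 1 → ∃ j, x < r j := by
    intro x hx
    obtain ⟨j, hj⟩ := exists_pow_lt_of_lt_one (show 0 < 1 - x by linarith) (show (1 / 2 : ℝ) < 1 by norm_num)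
    refine ⟨j, ?_⟩
    simp only [hr, hδ]
    rw [pow_succ]
    have : 0 < (1 / 2 : ℝ) ^ j := by positivity
    linarith
  have hstep := fun j : ℕ => step n (hr0 j) (hr1 j) (hδ0 j) (j : ℝ)
    (show (0 : ENNReal) < ENNReal.ofReal (δ j) from ENNReal.ofReal_pos.2 (hδ0 j))
  choose g r' B hgd hr'1 hg1 hg2 hg3 hBv hBs using hstep
  -- sums
  have hex : ∀ z : Fin n → ℂ, en z < 1 → ∃ k, en z < r k := fun z hz => hrlim _ hz
  have htail : ∀ k (z : Fin n → ℂ), en z ≤ r k → ∀ j, ‖g (j + k) z‖ ≤ δ (j + k) := by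
    intro k z hz j
    exact hg1 (j + k) z (hz.trans (hrmono _ _ (by omega)))
  have hsm : ∀ z : Fin n → ℂ, en z < 1 → Summable (fun j => g j z) := by
    intro z hz
    obtain ⟨k, hk⟩ := hex z hz
    rw [← summable_nat_add_iff k]
    exact Summable.of_norm_bounded ((summable_nat_add_iff k).2 hδs) (fun j => htail k z hk.le j)
  set G : (Fin n → ℂ) → ℂ := fun z => ∑' j, g j z with hG
  have hU : {z : Fin n → ℂ | ∑ i, ‖z i‖ ^ 2 < 1} = {z | en z < 1} := by
    ext z
    simp only [Set.mem_ofPred_eq, en]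
    rw [Real.sqrt_lt' one_pos]
    norm_num
  refine ⟨G, ?_, ?_⟩
  · rw [hU]
    intro z hz
    apply DifferentiableAt.differentiableWithinAt
    have hz1 : en z < 1 := hz
    obtain ⟨k, hk⟩ := hex z hz1
    -- a ball on which `en < r k`
    have hopen : IsOpen {y : Fin n → ℂ | en y < r k} := isOpen_lt continuous_en continuous_const
    obtain ⟨R, hR, hRs⟩ := Metric.isOpen_iff.1 hopen z hk
    have htl : DifferentiableAt ℂ (fun y => ∑' j, g (j + k) y) z :=
      differentiableAt_tsum (fun j => g (j + k)) (fun j => δ (j + k))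
        ((summable_nat_add_iff k).2 hδs) z R hR (fun j => hgd (j + k))
        (fun j y hy => htail k y (hRs hy).le j)
    have hfin : DifferentiableAt ℂ (fun y => ∑ j ∈ Finset.range k, g j y) z :=
      DifferentiableAt.fun_sum (fun j _ => (hgd j) z)
    refine (hfin.add htl).congr_of_eventuallyEq ?_
    filter_upwards [Metric.ball_mem_nhds z hR] with y hy
    simp only [hG]
    exact ((hsm y ((hRs hy).trans (hr1 k))).sum_add_tsum_nat_add k).symm
  · -- almost every z is eventually good
    have hae : ∀ᵐ z ∂(volume : Measure (Fin n → ℂ)), ∀ᶠ j in atTop, z ∉ B j := by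
      have h1 : ∀ᵐ z ∂(volume : Measure (Fin n → ℂ)), ∀ᶠ j in atTop,
          z ∉ B j ∩ Metric.ball 0 (j : ℝ) := by
        apply ae_eventually_notMem
        refine ne_top_of_le_ne_top ?_ (ENNReal.tsum_le_tsum hBv)
        rw [← ENNReal.ofReal_tsum_of_nonneg (fun j => (hδ0 j).le) hδs]
        exact ENNReal.ofReal_ne_top
      filter_upwards [h1] with z hz
      obtain ⟨k, hk⟩ := exists_nat_gt ‖z‖
      filter_upwards [hz, eventually_ge_atTop k] with j hj hkj hB
      apply hj
      refine ⟨hB, ?_⟩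
      rw [mem_ball_zero_iff]
      have : (k : ℝ) ≤ j := by exact_mod_cast hkj
      linarith
    filter_upwards [hae] with z hz hz0
    have henz : 0 < en z := by
      rw [en, Real.sqrt_pos]
      obtain ⟨i, hi⟩ := Function.ne_iff.1 hz0
      have h1 : ‖z i‖ ^ 2 ≤ ∑ i, ‖z i‖ ^ 2 :=
        Finset.single_le_sum (f := fun i => ‖z i‖ ^ 2) (fun _ _ => by positivity)
          (Finset.mem_univ i)
      have h2 : 0 < ‖z i‖ ^ 2 := by
        have : z i ≠ 0 := hi
        positivity
      linarith
    set ζ : Fin n → ℂ := (((en z)⁻¹ : ℝ) : ℂ) • z with hζ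
    have hζ1 : en ζ = 1 := by
      rw [hζ, en_smul, Complex.norm_real, Real.norm_of_nonneg (by positivity)]
      field_simp
    have hzζ : (((en z : ℝ)) : ℂ) • ζ = z := by
      rw [hζ, smul_smul, ← Complex.ofReal_mul, mul_inv_cancel₀ henz.ne', Complex.ofReal_one, one_smul]
    have hrz : ∀ t : ℝ, ((t / Real.sqrt (∑ i, ‖z i‖ ^ 2) : ℝ) : ℂ) • z = (t : ℂ) • ζ := by
      intro t
      change ((t / en z : ℝ) : ℂ) • z = _
      rw [hζ, smul_smul, ← Complex.ofReal_mul, div_eq_mul_inv]
    simp only [hrz]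
    -- good indices
    have hgood : ∀ j, z ∉ B j → ζ ∉ B j := by
      intro j hj hcon
      apply hj
      have := hBs j ζ hcon (en z) henz
      rwa [hzζ] at this
    obtain ⟨K, hK⟩ := eventually_atTop.1 hz
    have hK' : ∀ j, K ≤ j → ζ ∉ B j := fun j hj => hgood j (hK j hj)
    -- head is bounded on the segment
    have hhead : ∃ C : ℝ, ∀ t : ℝ, 0 ≤ t → t ≤ 1 →
        -C ≤ (∑ j ∈ Finset.range K, g j ((t : ℂ) • ζ)).re := by
      have hcont : Continuous (fun t : ℝ => (∑ j ∈ Finset.range K, g j ((t : ℂ) • ζ)).re) := by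
        apply Complex.continuous_re.comp
        apply continuous_finsetSum
        intro j _
        exact (hgd j).continuous.comp (Complex.continuous_ofReal.smul continuous_const)
      obtain ⟨C, hC⟩ := (isCompact_Icc (a := (0 : ℝ)) (b := 1)).exists_bound_of_continuousOn
        hcont.continuousOn
      refine ⟨C, fun t h0 h1 => ?_⟩
      have := hC t ⟨h0, h1⟩
      rw [Real.norm_eq_abs, abs_le] at this
      exact this.1
    obtain ⟨C, hC⟩ := hhead
    set D : ℝ := ∑' j, δ (j + K) with hD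
    rw [tendsto_atTop]
    intro b
    -- number of indices used
    obtain ⟨L, hL⟩ := exists_nat_gt (b + C + D)
    -- radius
    obtain ⟨ρ, hρ0, hρ1, hρ⟩ : ∃ ρ : ℝ, 0 ≤ ρ ∧ ρ < 1 ∧ ∀ j < L, r' (j + K) ≤ ρ := by
      clear hL
      induction L with
      | zero => exact ⟨0, le_rfl, one_pos, fun j hj => absurd hj (Nat.not_lt_zero _)⟩
      | succ L ih =>
        obtain ⟨ρ, h0, h1, h2⟩ := ih
        refine ⟨max ρ (r' (L + K)), h0.trans (le_max_left _ _), max_lt h1 (hr'1 _), fun j hj => ?_⟩
        rcases Nat.lt_succ_iff_lt_or_eq.1 hj with h | h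
        · exact (h2 j h).trans (le_max_left _ _)
        · rw [h]; exact le_max_right _ _
    have hnear : ∀ᶠ t : ℝ in 𝓝[<] (1 : ℝ), t ∈ Set.Ioo ρ 1 := Ioo_mem_nhdsLT hρ1
    filter_upwards [hnear] with t ht
    have ht0 : 0 ≤ t := hρ0.trans ht.1.le
    have ht1 : t ≤ 1 := ht.2.le
    set y : Fin n → ℂ := (t : ℂ) • ζ with hy
    have heny : en y < 1 := by
      rw [hy, en_smul, hζ1, mul_one, Complex.norm_real, Real.norm_of_nonneg ht0]
      exact ht.2
    have hs := hsm y heny
    have hsK : Summable (fun j => g (j + K) y) := (summable_nat_add_iff K).2 hs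
    have hGy : G y = (∑ j ∈ Finset.range K, g j y) + ∑' j, g (j + K) y := by
      simp only [hG]
      exact (hs.sum_add_tsum_nat_add K).symm
    have hre : (∑' j, g (j + K) y).re = ∑' j, (g (j + K) y).re := Complex.re_tsum hsK
    have hsre : Summable (fun j => (g (j + K) y).re) := (Complex.hasSum_re hsK.hasSum).summable
    have hsδ : Summable (fun j => δ (j + K)) := (summable_nat_add_iff K).2 hδs
    have hadd : ∑' j, ((g (j + K) y).re + δ (j + K)) = ∑' j, (g (j + K) y).re + D := by
      rw [hD]; exact hsre.tsum_add hsδ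
    have hnn : ∀ j, 0 ≤ (g (j + K) y).re + δ (j + K) := by
      intro j
      have := hg2 (j + K) ζ (hK' _ (by omega)) t ht0 ht1 hζ1
      linarith
    have hbig : ∀ j < L, 1 ≤ (g (j + K) y).re + δ (j + K) := by
      intro j hj
      have := hg3 (j + K) ζ (hK' _ (by omega)) t ((hρ j hj).trans ht.1.le) ht1 hζ1
      linarith
    have h1 : ∑ j ∈ Finset.range L, ((g (j + K) y).re + δ (j + K)) ≤
        ∑' j, ((g (j + K) y).re + δ (j + K)) :=
      (hsre.add hsδ).sum_le_tsum _ (fun j _ => hnn j)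
    have h2 : ∑ j ∈ Finset.range L, (1 : ℝ) ≤ ∑ j ∈ Finset.range L, ((g (j + K) y).re + δ (j + K)) :=
      Finset.sum_le_sum (fun j hj => hbig j (Finset.mem_range.1 hj))
    simp only [Finset.sum_const, Finset.card_range, nsmul_eq_mul, mul_one] at h2
    have h3 := hC t ht0 ht1
    rw [hGy, Complex.add_re, hre]
    linarith

end Pool.Agent.H903R3
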